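import Mathlib

open MeasureTheory ProbabilityTheory Set Filter Topology Complex
open scoped ContDiff ENNReal NNReal

namespace Pool.Agent.H.MP_c7609e_pr

/-- an entire function whose real part is at most `a |z|^2` is `c z^2` -/
lemma quad (h : ℂ → ℂ) (hd : Differentiable ℂ h) (h0 : h 0 = 0) (a : ℝ) (ha : 0 < a)
    (hb : ∀ z, (h z).re ≤ a * ‖z‖ ^ 2) : ∃ c : ℂ, ∀ z, h z = c * z ^ 2 := by
  have h1 : ∀ z, ‖h z‖ ≤ 8 * a * ‖z‖ ^ 2 := by
    intro z
    by_cases hz : z = 0
    · simp [hz, h0]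
    have hz' : 0 < ‖z‖ := norm_pos_iff.2 hz
    have := borelCaratheodory_zero (f := h) (R := 2 * ‖z‖) (M := a * (2 * ‖z‖) ^ 2) (z := z) (by positivity)
      hd.differentiableOn (fun w hw => (hb w).trans (by
        have := mem_ball_zero_iff.1 hw
        gcongr)) (by positivity) (mem_ball_zero_iff.2 (by linarith)) h0
    rw [show 2 * ‖z‖ - ‖z‖ = ‖z‖ by ring, mul_div_assoc, div_self hz'.ne'] at this
    linarith
  have d1 : Differentiable ℂ (dslope h 0) :=
    differentiableOn_univ.1 ((differentiableOn_dslope univ_mem).2 hd.differentiableOn)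
  have d2 : Differentiable ℂ (dslope (dslope h 0) 0) :=
    differentiableOn_univ.1 ((differentiableOn_dslope univ_mem).2 d1.differentiableOn)
  have e1 : ∀ z, z ≠ 0 → dslope h 0 z = h z / z := fun z hz => by
    rw [dslope_of_ne _ hz, slope_def_field, h0, sub_zero, sub_zero]
  have e2 : dslope h 0 0 = 0 := by
    have t1 : Tendsto (dslope h 0) (𝓝[≠] 0) (𝓝 (dslope h 0 0)) := d1.continuous.continuousAt.tendsto.mono_left nhdsWithin_le_nhds
    have t2 : Tendsto (dslope h 0) (𝓝[≠] 0) (𝓝 0) := by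
      refine squeeze_zero_norm' (a := fun z => 8 * a * ‖z‖) ?_ ?_
      · filter_upwards [self_mem_nhdsWithin] with z hz
        rw [e1 z hz, norm_div, div_le_iff₀ (norm_pos_iff.2 hz)]
        have := h1 z
        linarith
      · have : Continuous fun z : ℂ => 8 * a * ‖z‖ := by fun_prop
        simpa using (this.tendsto 0).mono_left nhdsWithin_le_nhds
    exact tendsto_nhds_unique t1 t2
  have e3 : ∀ z, z ≠ 0 → dslope (dslope h 0) 0 z = h z / z ^ 2 := fun z hz => by
    rw [dslope_of_ne _ hz, slope_def_field, e2, sub_zero, sub_zero, e1 z hz, div_div, sq]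
  have hbd : Bornology.IsBounded (range (dslope (dslope h 0) 0)) := by
    refine isBounded_iff_forall_norm_le.2 ⟨max (8 * a) ‖dslope (dslope h 0) 0 0‖, ?_⟩
    rintro _ ⟨z, rfl⟩
    by_cases hz : z = 0
    · rw [hz]; exact le_max_right _ _
    · refine le_trans ?_ (le_max_left _ _)
      rw [e3 z hz, norm_div, norm_pow, div_le_iff₀ (pow_pos (norm_pos_iff.2 hz) 2)]
      exact h1 z
  refine ⟨dslope (dslope h 0) 0 0, fun z => ?_⟩
  by_cases hz : z = 0
  · simp [hz, h0]
  · rw [d2.apply_eq_apply_of_bounded hbd 0 z, e3 z hz]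
    field_simp

lemma one_le_mgf (ν : Measure ℝ) [IsProbabilityMeasure ν] (g : ℝ → ℝ) (hg : ∀ ξ, charFun ν ξ = g ξ)
    (hi : ∀ t, Integrable (fun x => Real.exp (t * x)) ν) (t : ℝ) : 1 ≤ mgf id ν t := by
  have h1 : ν.map (fun x => -1 * x) = ν := by
    have := Measure.isProbabilityMeasure_map (μ := ν) (f := fun x : ℝ => -1 * x) (by fun_prop)
    refine Measure.ext_of_charFun (funext fun ξ => ?_)
    rw [charFun_map_mul, neg_one_mul, charFun_neg, hg, conj_ofReal]
  have h2 : ∫ x, Real.exp (t * x) ∂ν = ∫ x, Real.exp (-t * x) ∂ν := by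
    conv_lhs => rw [← h1]
    rw [integral_map (by fun_prop) (by fun_prop)]
    congr 2 with x
    ring
  have h3 : ∫ _x, (2 : ℝ) ∂ν ≤ ∫ x, (Real.exp (t * x) + Real.exp (-t * x)) ∂ν :=
    integral_mono (integrable_const _) ((hi t).add (hi (-t))) fun x => by
      have := Real.add_one_le_exp (t * x)
      have := Real.add_one_le_exp (-t * x)
      simp only
      linarith
  rw [integral_add (hi t) (hi (-t)), ← h2] at h3
  simp only [integral_const, probReal_univ, smul_eq_mul] at h3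
  change 1 ≤ ∫ x, Real.exp (t * x) ∂ν
  linarith

/-- the Cramer decomposition theorem for positive characteristic functions -/
lemma cramer (μ ν : Measure ℝ) [IsProbabilityMeasure μ] [IsProbabilityMeasure ν] (a : ℝ) (ha : 0 < a)
    (f g : ℝ → ℝ) (hf : ∀ ξ, charFun μ ξ = f ξ) (hg : ∀ ξ, charFun ν ξ = g ξ) (hp : ∀ ξ, 0 < f ξ)
    (h : ∀ ξ, f ξ * g ξ = Real.exp (-(a * ξ ^ 2))) : ∃ c : ℝ, 0 ≤ c ∧ ∀ ξ, f ξ = Real.exp (-(c * ξ ^ 2)) := by
  let v : ℝ≥0 := ⟨2 * a, by positivity⟩
  have hv : (v : ℝ) = 2 * a := rfl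
  have h1 : μ ∗ ν = gaussianReal 0 v := by
    refine Measure.ext_of_charFun (funext fun ξ => ?_)
    rw [charFun_conv, hf, hg, charFun_gaussianReal, hv, ← ofReal_mul, h, ofReal_exp]
    congr 1
    push_cast
    ring
  have h2 : ∀ t, Integrable (fun p : ℝ × ℝ => Real.exp (t * p.1) * Real.exp (t * p.2)) (μ.prod ν) := by
    intro t
    have := integrable_exp_mul_gaussianReal (μ := 0) (v := v) t
    rw [← h1, Measure.conv, integrable_map_measure (by fun_prop) (by fun_prop)] at this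
    refine this.congr (Eventually.of_forall fun p => ?_)
    simp only [Function.comp, mul_add, Real.exp_add]
  have hμ : ∀ t, Integrable (fun x => Real.exp (t * x)) μ := fun t => by
    obtain ⟨y, hy⟩ := (h2 t).prod_left_ae.exists
    simpa [mul_assoc, ← Real.exp_add] using hy.mul_const (Real.exp (-(t * y)))
  have hν : ∀ t, Integrable (fun x => Real.exp (t * x)) ν := fun t => by
    obtain ⟨y, hy⟩ := (h2 t).prod_right_ae.exists
    simpa [← mul_assoc, ← Real.exp_add] using hy.const_mul (Real.exp (-(t * y)))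
  have h3 : ∀ z, complexMGF id μ z * complexMGF id ν z = cexp (a * z ^ 2) := by
    intro z
    have := complexMGF_id_gaussianReal (μ := 0) (v := v) z
    rw [← h1, complexMGF, Measure.conv, integral_map (by fun_prop) (by fun_prop), hv] at this
    rw [complexMGF, complexMGF, ← integral_prod_mul, show (a : ℂ) * z ^ 2 = z * (0 : ℝ) + (2 * a : ℝ) * z ^ 2 / 2 by
      push_cast; ring, ← this]
    congr 1 with p
    simp [← Complex.exp_add, mul_add]
  have h4 : ∀ z, complexMGF id μ z ≠ 0 := fun z hz => by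
    have := h3 z
    rw [hz, zero_mul] at this
    exact Complex.exp_ne_zero _ this.symm
  have h5 : Differentiable ℂ (complexMGF id μ) := fun z => (analyticAt_complexMGF (by
    rw [show integrableExpSet id μ = univ from eq_univ_of_forall hμ]; simp)).differentiableAt
  have h6 : Differentiable ℂ fun z => deriv (complexMGF id μ) z / complexMGF id μ z := h5.deriv.div h5 h4
  obtain ⟨k, hk0, hk⟩ := h6.isExactOn_univ.with_val_at 0 0
  have h7 : ∀ z, complexMGF id μ z = cexp (k z) := by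
    have hd : ∀ z, HasDerivAt (fun z => complexMGF id μ z * cexp (-k z)) 0 z := fun z =>
      ((h5 z).hasDerivAt.mul (hk z (mem_univ z)).neg.cexp).congr_deriv (by
        have := h4 z
        simp only [Pi.neg_apply]
        field_simp
        ring)
    intro z
    have := is_const_of_deriv_eq_zero (fun z => (hd z).differentiableAt) (fun z => (hd z).deriv) z 0
    simp only [hk0, neg_zero, Complex.exp_zero, mul_one] at this
    rw [show complexMGF id μ 0 = 1 by simp [complexMGF], Complex.exp_neg, mul_inv_eq_one₀ (Complex.exp_ne_zero _)] at this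
    exact this
  obtain ⟨c, hc⟩ := quad k (fun z => (hk z (mem_univ z)).differentiableAt) hk0 a ha fun z => by
    have e1 := norm_complexMGF_le_mgf (X := id) (μ := μ) (z := z)
    rw [h7, Complex.norm_exp] at e1
    have e2 := h3 z.re
    rw [complexMGF_ofReal, complexMGF_ofReal] at e2
    have e3 : mgf id μ z.re * mgf id ν z.re = Real.exp (a * z.re ^ 2) := by exact_mod_cast e2
    have e4 := one_le_mgf ν g hg hν z.re
    have e5 := mgf_nonneg (X := id) (μ := μ) (t := z.re)
    have e6 : Real.exp (k z).re ≤ Real.exp (a * z.re ^ 2) := by nlinarith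
    refine (Real.exp_le_exp.1 e6).trans (mul_le_mul_of_nonneg_left ?_ ha.le)
    rw [← sq_abs]
    exact pow_le_pow_left₀ (abs_nonneg _) (abs_re_le_norm z) 2
  have h8 : ∀ ξ : ℝ, f ξ = Real.exp (-(c.re * ξ ^ 2)) := fun ξ => by
    have e1 := congrArg norm (hf ξ)
    rw [← complexMGF_id_mul_I, h7, hc, Complex.norm_exp, norm_real, Real.norm_of_nonneg (hp ξ).le, mul_pow, I_sq,
      ← ofReal_pow] at e1
    rw [← e1]
    simp [← ofReal_pow]
  refine ⟨c.re, ?_, h8⟩
  have e1 := norm_charFun_le_one (μ := μ) 1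
  rw [hf, norm_real, Real.norm_of_nonneg (hp 1).le, h8, Real.exp_le_one_iff] at e1
  linarith

lemma atom (μ : Measure ℝ) [IsProbabilityMeasure μ] (f : ℝ → ℝ) (hf : ∀ ξ, charFun μ ξ = f ξ) (p : ℝ)
    (hp : ∀ ξ, p ≤ f ξ) : p ≤ μ.real {0} := by
  have h1 : ∀ n : ℕ, p ≤ ∫ x, Real.exp (-((n * x) ^ 2 / 2)) ∂μ := by
    intro n
    have e1 : ∫ ξ, charFun μ (n * ξ) ∂gaussianReal 0 1 = ∫ x, charFun (gaussianReal 0 1) (n * x) ∂μ := by
      simp only [charFun_apply_real]
      rw [integral_integral_swap]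
      · congr 1 with x
        congr 1 with ξ
        push_cast
        ring_nf
      · refine (integrable_const (1 : ℝ)).mono' (by fun_prop) (Eventually.of_forall fun q => ?_)
        simp only [Function.uncurry, ← ofReal_mul, norm_exp_ofReal_mul_I, le_refl]
    have e2 : ∀ x : ℝ, charFun (gaussianReal 0 1) (n * x) = (Real.exp (-((n * x) ^ 2 / 2)) : ℝ) := fun x => by
      rw [charFun_gaussianReal, ofReal_exp]
      congr 1
      push_cast
      ring
    simp only [hf, e2, integral_complex_ofReal, ofReal_inj] at e1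
    rw [← e1]
    have e3 : f = fun ξ => (charFun μ ξ).re := funext fun ξ => by rw [hf, ofReal_re]
    have e4 : Continuous f := by rw [e3]; exact continuous_re.comp continuous_charFun
    have e5 : Integrable (fun ξ => f (n * ξ)) (gaussianReal 0 1) :=
      (integrable_const (1 : ℝ)).mono' (by fun_prop) (Eventually.of_forall fun ξ => by
        rw [← norm_real, ← hf]; exact norm_charFun_le_one _)
    simpa using integral_mono (integrable_const p) e5 fun ξ => hp _
  have h2 : Tendsto (fun n : ℕ => ∫ x, Real.exp (-((n * x) ^ 2 / 2)) ∂μ) atTop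
      (𝓝 (∫ x, ({0} : Set ℝ).indicator 1 x ∂μ)) := by
    refine tendsto_integral_of_dominated_convergence (fun _ => 1) (fun n => by fun_prop) (integrable_const _)
      (fun n => Eventually.of_forall fun x => ?_) (Eventually.of_forall fun x => ?_)
    · rw [Real.norm_of_nonneg (Real.exp_pos _).le, Real.exp_le_one_iff, neg_nonpos]
      positivity
    · by_cases hx : x = 0
      · simp [hx]
      · rw [indicator_of_notMem (by simpa using hx)]
        refine Real.tendsto_exp_neg_atTop_nhds_zero.comp ?_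
        simp only [mul_pow]
        exact (((tendsto_pow_atTop two_ne_zero).comp tendsto_natCast_atTop_atTop).atTop_mul_const
          (by positivity)).atTop_div_const (by norm_num)
  rw [integral_indicator_one (measurableSet_singleton 0)] at h2
  exact ge_of_tendsto' h2 h1

lemma shift (μ : Measure ℝ) [IsProbabilityMeasure μ] (f : ℝ → ℝ) (hf : ∀ ξ, charFun μ ξ = f ξ)
    (hp : ∀ ξ, 1 / 2 ≤ f ξ) : ∃ ν : Measure ℝ, IsProbabilityMeasure ν ∧ ∀ ξ, charFun ν ξ = (2 * f ξ - 1 : ℝ) := by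
  have h1 := atom μ f hf _ hp
  have h2 : (2⁻¹ : ℝ≥0∞) ≤ μ {0} := by
    rw [← ofReal_measureReal (μ := μ) (s := {0})]
    refine le_trans (le_of_eq ?_) (ENNReal.ofReal_le_ofReal h1)
    rw [one_div, ENNReal.ofReal_inv_of_pos (by norm_num)]
    simp
  have h3 : (2⁻¹ : ℝ≥0) • Measure.dirac (0 : ℝ) ≤ μ := by
    refine Measure.le_iff.2 fun s hs => ?_
    by_cases h : (0 : ℝ) ∈ s
    · refine le_trans ?_ (h2.trans (measure_mono (singleton_subset_iff.2 h)))
      simp [h]
    · simp [h]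
  have h4 := Measure.sub_add_cancel_of_le h3
  obtain ⟨ρ, hρ⟩ : ∃ ρ, ρ = μ - (2⁻¹ : ℝ≥0) • Measure.dirac (0 : ℝ) := ⟨_, rfl⟩
  rw [← hρ] at h4
  have : IsFiniteMeasure ρ := by rw [hρ]; infer_instance
  have h5 : ∀ ξ, charFun ((2 : ℝ≥0) • ρ) ξ = (2 * f ξ - 1 : ℝ) := fun ξ => by
    have e := hf ξ
    have hi : ∀ (m : Measure ℝ) [IsFiniteMeasure m], Integrable (fun x : ℝ => cexp (ξ * x * I)) m := fun m _ =>
      (integrable_const (1 : ℝ)).mono' (by fun_prop) (Eventually.of_forall fun q => by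
        simp only [← ofReal_mul, norm_exp_ofReal_mul_I, le_refl])
    rw [← h4, charFun_apply_real, integral_add_measure (hi _) (hi _), integral_smul_nnreal_measure, integral_dirac] at e
    rw [charFun_apply_real, integral_smul_nnreal_measure]
    push_cast
    rw [← e]
    simp [NNReal.smul_def]
    ring
  refine ⟨(2 : ℝ≥0) • ρ, ?_, h5⟩
  have e1 := h5 0
  have e2 := hf 0
  rw [charFun_zero] at e1 e2
  rw [probReal_univ, ofReal_inj] at e2
  rw [← e2, ofReal_inj] at e1
  exact isProbabilityMeasure_iff_real.2 (by rw [e1]; norm_num)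

def CM (L : ℝ → ℝ) : Prop :=
  ContinuousOn L (Ici 0) ∧ ContDiffOn ℝ ∞ L (Ioi 0) ∧ (∀ n : ℕ, ∀ s > 0, 0 ≤ (-1) ^ n * iteratedDeriv n L s) ∧
    MapsTo L (Ici 0) (Ioc 0 1) ∧ InjOn L (Ici 0) ∧ L 0 = 1

def CC (ψ : ℝ → ℝ) : Prop :=
  ∃ (σ : ℝ) (ν : Measure ℝ), ∫⁻ t in Ioi 0, ENNReal.ofReal (min 1 (t ^ 2)) ∂ν < ⊤ ∧
    ∀ ξ, ψ ξ = σ ^ 2 * ξ ^ 2 / 2 + ∫ t in Ioi 0, (1 - Real.cos (t * ξ)) ∂ν

def R (L : ℝ → ℝ) : Prop :=
  ∀ a > 0, ∀ (μ₁ μ₂ : Measure ℝ) (f₁ f₂ : ℝ → ℝ), IsProbabilityMeasure μ₁ → IsProbabilityMeasure μ₂ →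
    (∀ ξ, charFun μ₁ ξ = f₁ ξ ∧ f₁ ξ ∈ L '' Ici 0) → (∀ ξ, charFun μ₂ ξ = f₂ ξ ∧ f₂ ξ ∈ L '' Ici 0) →
    (∀ ξ, L (Function.invFunOn L (Ici 0) (f₁ ξ) + Function.invFunOn L (Ici 0) (f₂ ξ)) = L (a * ξ ^ 2)) →
    ∃ η₁ η₂, CC η₁ ∧ CC η₂ ∧ f₁ = L ∘ η₁ ∧ f₂ = L ∘ η₂

theorem main : ∃ L, CM L ∧ R L ∧ ∀ c > 0, ¬ ∀ s ≥ 0, L s = Real.exp (-(c * s)) := by
  refine ⟨fun s => (1 + Real.exp (-s)) / 2, ⟨by fun_prop, by fun_prop, fun n s _ => ?_, fun s hs => ⟨by positivity, ?_⟩,
    fun s _ t _ h => ?_, by norm_num⟩, ?_, fun c hc h => ?_⟩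
  · have h : ∀ n : ℕ, iteratedDeriv (n + 1) (fun s => (1 + Real.exp (-s)) / 2) =
        fun s => (-1) ^ (n + 1) * Real.exp (-s) / 2 := by
      intro n
      induction n with
      | zero =>
        funext s
        rw [zero_add, iteratedDeriv_one]
        exact (((hasDerivAt_neg s).exp.const_add 1).div_const 2).deriv.trans (by ring)
      | succ n ih =>
        funext s
        rw [iteratedDeriv_succ, ih]
        exact (((hasDerivAt_neg s).exp.const_mul ((-1) ^ (n + 1))).div_const 2).deriv.trans (by ring)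
    rcases n with _ | n
    · simp only [pow_zero, iteratedDeriv_zero]
      positivity
    · rw [h, ← mul_div_assoc, ← mul_assoc, ← mul_pow]
      simp only [mul_neg, mul_one, neg_neg, one_pow, one_mul]
      positivity
  · have : Real.exp (-s) ≤ 1 := Real.exp_le_one_iff.2 (neg_nonpos.2 hs)
    simp only
    linarith
  · simp only at h
    exact neg_injective (Real.exp_injective (by linarith))
  · intro a ha μ₁ μ₂ f₁ f₂ _ _ h1 h2 h3
    have e1 := fun ξ => Function.invFunOn_eq (h1 ξ).2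
    have e2 := fun ξ => Function.invFunOn_eq (h2 ξ).2
    have p1 : ∀ ξ, 0 < 2 * f₁ ξ - 1 := fun ξ => by
      rw [← e1 ξ]
      have := Real.exp_pos (-Function.invFunOn (fun s => (1 + Real.exp (-s)) / 2) (Ici 0) (f₁ ξ))
      linarith
    have p2 : ∀ ξ, 0 < 2 * f₂ ξ - 1 := fun ξ => by
      rw [← e2 ξ]
      have := Real.exp_pos (-Function.invFunOn (fun s => (1 + Real.exp (-s)) / 2) (Ici 0) (f₂ ξ))
      linarith
    have e3 : ∀ ξ, (2 * f₁ ξ - 1) * (2 * f₂ ξ - 1) = Real.exp (-(a * ξ ^ 2)) := fun ξ => by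
      have e4 := h3 ξ
      have e5 := e1 ξ
      have e6 := e2 ξ
      simp only [neg_add, Real.exp_add] at e4
      rw [← e5, ← e6, e5, e6]
      have e7 : 2 * f₁ ξ - 1 = Real.exp (-Function.invFunOn (fun s => (1 + Real.exp (-s)) / 2) (Ici 0) (f₁ ξ)) := by
        linarith
      have e8 : 2 * f₂ ξ - 1 = Real.exp (-Function.invFunOn (fun s => (1 + Real.exp (-s)) / 2) (Ici 0) (f₂ ξ)) := by
        linarith
      rw [e7, e8]
      linarith
    obtain ⟨ν₁, _, g1⟩ := shift μ₁ f₁ (fun ξ => (h1 ξ).1) fun ξ => by linarith [p1 ξ]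
    obtain ⟨ν₂, _, g2⟩ := shift μ₂ f₂ (fun ξ => (h2 ξ).1) fun ξ => by linarith [p2 ξ]
    obtain ⟨c₁, q1, r1⟩ := cramer ν₁ ν₂ a ha _ _ g1 g2 p1 e3
    obtain ⟨c₂, q2, r2⟩ := cramer ν₂ ν₁ a ha _ _ g2 g1 p2 fun ξ => (mul_comm _ _).trans (e3 ξ)
    have hC : ∀ c : ℝ, 0 ≤ c → CC fun ξ => c * ξ ^ 2 := fun c hc =>
      ⟨√(2 * c), 0, by simp, fun ξ => by rw [Real.sq_sqrt (by positivity)]; simp; ring⟩
    refine ⟨_, _, hC c₁ q1, hC c₂ q2, funext fun ξ => ?_, funext fun ξ => ?_⟩
    · simp only [Function.comp, ← r1]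
      ring
    · simp only [Function.comp, ← r2]
      ring
  · have e1 := h (1 / c) (by positivity)
    simp only [mul_one_div_cancel hc.ne'] at e1
    have e2 := Real.exp_pos (-(1 / c))
    have e3 := Real.exp_neg_one_lt_d9
    linarith

end Pool.Agent.H.MP_c7609e_pr
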